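import Mathlib
import Pool.Agent.Y140.AW.Fin4

/-!
# Étale covers of the affine line over `F_p` with groups `G ≀ A_n` and wreath products, `p` odd

Let `κ` be a finite field of odd characteristic `p` (for instance `F_p`) and `π_A` the class of the
groups of connected étale Galois covers of the affine line over `κ`. Let `G` be a finite perfect
group; no realization of `G` is assumed. For infinitely many `n` the group `H = G ≀ A_n` is in `π_A`,
and for all `Γ` in `π_A` and all finite sets `Ω` with an action of `Γ` the group `H^Ω ⋊ Γ` is in `π_A`.
For `n ≥ max(p, 5)` the group `H` is quasi-`p`, and `H^Ω ⋊ Γ` is quasi-`p` if `Γ` is, so they are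
instances of the conjecture.

The cover is found by specialising a family of covers of degree `n` of the line, given by functions
`f = x + h^p` (`h` with poles off infinity) on a curve with a `G`-covering. The differential of `f` is
that of `x`, so all fibres outside infinity are unramified also after specialisation; the norm of the
different is a constant square for suitable `h`, and Dirichlet's theorem gives the size of the group.
The family is used over the cover with group `Γ` (Weil restriction), and its parameters are
specialised to polynomials, so that nothing ramifies in the finite part.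
-/

set_option autoImplicit false

namespace Pool.Agent.Results.MP_9c0cee_ag.AlternatingWreath

open Polynomial

/-- The alternating wreath product `G ≀ A_n`: the group of the elements of `G^n ⋊ S_n` over even
permutations. -/
def AltWreath (G : Type) [Group G] (n : ℕ) : Type :=
  (Equiv.Perm.sign.comp (SemidirectProduct.rightHom :
    (Fin n → G) ⋊[mulAutArrow] Equiv.Perm (Fin n) →* Equiv.Perm (Fin n))).ker

/-- Its group structure. -/
instance instGroup (G : Type) [Group G] (n : ℕ) : Group (AltWreath G n) :=
  inferInstanceAs (Group (Equiv.Perm.sign.comp (SemidirectProduct.rightHom :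
    (Fin n → G) ⋊[mulAutArrow] Equiv.Perm (Fin n) →* Equiv.Perm (Fin n))).ker)

/-- `H` is the group of a finite Galois extension `L` of `κ(t)` which is unramified over `κ[t]`, that
is, at all primes of the integral closure of `κ[t]` in `L`. -/
def AffineLineGroup (κ H : Type) [Field κ] [Group H] : Prop :=
  ∃ (L : Type) (_ : Field L) (_ : Algebra (RatFunc κ) L) (_ : Algebra κ[X] L)
    (_ : IsScalarTower κ[X] (RatFunc κ) L) (_ : FiniteDimensional (RatFunc κ) L)
    (_ : IsGalois (RatFunc κ) L), Nonempty ((L ≃ₐ[RatFunc κ] L) ≃* H) ∧
    ∀ (q : Ideal (integralClosure κ[X] L)) (_ : q.IsPrime), Algebra.IsUnramifiedAt κ[X] q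

theorem result (p : ℕ) [Fact p.Prime] (hp : p ≠ 2) (κ : Type) [Field κ] [Finite κ] [CharP κ p]
    (G : Type) [Group G] [Finite G] (hG : commutator G = ⊤) (n₀ : ℕ) :
    ∃ n ≥ n₀, AffineLineGroup κ (AltWreath G n) ∧
      ∀ (Γ Ω : Type) [Group Γ] [Finite Ω] [MulAction Γ Ω], AffineLineGroup κ Γ →
        AffineLineGroup κ ((Ω → AltWreath G n) ⋊[mulAutArrow] Γ) :=
  Pool.Agent.Y140.AW.out5 p hp κ G hG n₀

end Pool.Agent.Results.MP_9c0cee_ag.AlternatingWreath
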